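import Pool.Agent.TH522.DG.Main

/-!
The mixed hierarchy (Sherali-Adams plus the basic semidefinite program) for `d`-to-1 Label Cover:
value one and value less than `δ` are told apart at level `n ^ (C x log (2 / x))`,
`x = log (256 d) / log (1 / (2 ^ 19 δ))`, where `n` is the number of right vertices; no assumption
on the alphabets, the degrees or the spectrum.

Idea of the proof. The two-step chain on the right vertices has nonnegative spectrum. A variational
choice of a soft part (a maximiser of the retained mass over the square of an `L^p` norm, `p` just
below `2`) gives a part in which the chain satisfies an `L^p` to `L^2` inequality, so that its return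
probabilities decay in `(log n / l) log (1 / x)` steps. A pair of edges with a common left vertex is
consistent in the hierarchy with constant probability, and the fibres have at most `d` elements; so
unless independent labels are consistent as well, the labels have local correlation `1 / O(d)` in
the sense of an alphabet-free positive semidefinite kernel. In `(log n / l) log (1 / x)` steps of
the chain this gives global correlation `n ^ (-O(x log (2 / x)))`, and conditioning decreases the
variance. So after conditioning, independent labels are consistent along the pairs of edges of the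
part; a level set of the amplitude of the part is kept, at the cost of a factor `e ^ (-l)`, and the
procedure is repeated with the remaining vertices.
-/

namespace Pool.Agent.Results.MP_62e2f2_lc.MixedHierarchy

open Finset

/-- `f`, a function of a labeling `z` (`z.1` of the right vertices with labels in `A`, `z.2` of the
left vertices with labels in `B`), depends only on the labels of the right vertices in `S` and of
the left vertices in `T`. -/
def DependsOn {V W A B : Type} (S : Finset W) (T : Finset V) (f : (W → A) × (V → B) → ℝ) : Prop :=
  ∀ z z' : (W → A) × (V → B), (∀ w ∈ S, z.1 w = z'.1 w) → (∀ v ∈ T, z.2 v = z'.2 v) → f z = f z'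

/-- `L` is a solution of level `k` of the mixed hierarchy: a normalised linear functional on the
functions of a labeling which is nonnegative on all nonnegative functions of the labels of at most
`k + 2` vertices (Sherali-Adams), and has positive semidefinite pair moments after conditioning on
at most `k` vertices (the weight `g`; basic semidefinite program). -/
structure IsMixed {V W A B : Type} [Fintype V] [Fintype W] (k : ℕ)
    (L : ((W → A) × (V → B) → ℝ) →ₗ[ℝ] ℝ) : Prop where
  one : L (fun _ => 1) = 1
  nonneg : ∀ (S : Finset W) (T : Finset V), S.card + T.card ≤ k + 2 →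
    ∀ f : (W → A) × (V → B) → ℝ, DependsOn S T f → (∀ z, 0 ≤ f z) → 0 ≤ L f
  psd : ∀ (S : Finset W) (T : Finset V), S.card + T.card ≤ k →
    ∀ g : (W → A) × (V → B) → ℝ, DependsOn S T g → (∀ z, 0 ≤ g z) →
    ∀ (c : W → A → ℝ) (c' : V → B → ℝ),
      0 ≤ L (fun z => g z * (∑ w, c w (z.1 w) + ∑ v, c' v (z.2 v)) ^ 2)

/-- Let a `d`-to-1 Label Cover instance have edges `(v e, w e)` with projections `π e` from the
labels `A` of the right vertices `W` to the labels `B` of the left vertices `V`, and let `0 < c ≤ 1`
and `log (256 d / c ^ 4) ≤ l ≤ log |W|`. If some level `k ≥ |W| ^ (9 x log (2 / x))`, where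
`x = log (256 d / c ^ 4) / l`, of the mixed hierarchy has a solution of value at least `c`, then
some labeling satisfies at least the fraction `c ^ 5 e ^ (-l) / 2 ^ 19` of the edges. -/
theorem result (V W E A B : Type) [Fintype V] [Fintype W] [Fintype E] [Fintype A] [Fintype B]
    [DecidableEq B] (v : E → V) (w : E → W) (π : E → A → B) (d k : ℕ) (c l x : ℝ)
    (L : ((W → A) × (V → B) → ℝ) →ₗ[ℝ] ℝ) (hd : 1 ≤ d)
    (hπ : ∀ e b, (univ.filter fun a => π e a = b).card ≤ d) (hc : 0 < c) (hc1 : c ≤ 1)
    (hl : Real.log (256 * d / c ^ 4) ≤ l) (hln : l ≤ Real.log (Fintype.card W))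
    (hx : x = Real.log (256 * d / c ^ 4) / l)
    (hk : (Fintype.card W : ℝ) ^ (9 * (x * Real.log (2 / x))) ≤ k) (hL : IsMixed k L)
    (hval : c * (Fintype.card E : ℝ) ≤
      ∑ e, L (fun z => if π e (z.1 (w e)) = z.2 (v e) then 1 else 0)) :
    ∃ (M : W → A) (N : V → B), c ^ 5 * Real.exp (-l) / 2 ^ 19 * (Fintype.card E : ℝ) ≤
      ((univ.filter fun e => π e (M (w e)) = N (v e)).card : ℝ) := by
  have hd1 : (1 : ℝ) ≤ d := by exact_mod_cast hd
  have hc4 : c ^ 4 ≤ 1 := pow_le_one₀ hc.le hc1
  have hR : (256 : ℝ) ≤ 256 * d / c ^ 4 := by
    rw [le_div_iff₀ (by positivity)]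
    nlinarith [pow_pos hc 4]
  have hΛ : 0 < Real.log (256 * d / c ^ 4) := Real.log_pos (by linarith)
  exact Pool.Agent.TH522.DG.core v w π d hπ c l x hc hc1 hx (by linarith) hl hln k hk L
    ⟨hL.one, hL.nonneg, hL.psd⟩ hval

end Pool.Agent.Results.MP_62e2f2_lc.MixedHierarchy
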