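import Pool.Agent.TH837.MX.Lab

/-!
# `d`-to-1 Label Cover for pure dynamic programs: the threshold `1 / R`

A (max,+) program (a pure dynamic program, a tropical circuit) computes functions of the weights of
the constraints, one after the other; each is an input, a real constant, or the maximum or the sum
of two functions computed before. The inputs are the weights of all `d`-to-1 constraints between
`n` right vertices (with labels in `Fin (d * R)`) and `n` left vertices (with labels in `Fin R`);
their number is `N`. We consider programs whose value never exceeds the largest total weight of the
constraints which a labeling can satisfy.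

The threshold for the approximation ratio is `1 / R`: there is a program with `2 N + R + 1`
instructions and ratio `1 / R` for all nonnegative weights, but if the value is at least
`(1 / R + ε) |φ|` for each satisfiable set `φ` of constraints (they have weight one, while the
others have weight zero) then the program has at least `2 ^ (γ n) - 1` instructions, where `γ > 0`
depends on `d`, `R` and `ε` only. So Khot's conjecture (perfect completeness, arbitrarily small
soundness `1 / R + ε`) holds for the approximation of the value by pure dynamic programs, with an
exponential bound; it holds for randomised programs with success probability `2 ^ (- γ n)` too.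
(It holds also for `d = 1`, where label propagation, which is not a pure dynamic program, takes
polynomial time if the value is one.) Trying all labelings is a pure dynamic program with
`2 ^ (O n)` instructions.

Proof. By scaling, the monomials of the program are sets of constraints which can be satisfied
simultaneously. For a labeling `x` some monomial contains a fraction `1 / R + ε` of the set `φ x` of
all constraints which are satisfied by `x`. The proof tree is cut into a constant number `K` of
pieces with few leaves. Consider a class of labelings with the same skeleton. Pieces of different
members may be exchanged, so the places `1, ..., K` get disjoint sets `U 1, ..., U K` of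
constraints. The places where `U k` is large contribute little, since the pieces are small. Put the
pieces of `K` independent members `x 1, ..., x K` of the class together: some `z` satisfies all
these constraints. But for a fixed `z`, and independent random `x k`, the number of the constraints
in `U k` which are satisfied by `z` and by `x k` is about a fraction `1 / R` of the number of those
satisfied by `z`, and an exponential moment (linear in the labels of one side, when the labels of
the other side are fixed) shows that a larger number has probability at most `exp (- C n)`, with a
large constant `C` if all `U k` are small. Hence the class is a fraction `exp (- n / K)` of all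
labelings.
-/

set_option autoImplicit false

namespace Pool.Agent.Results.MP_62e2f2_lc.PureDPThreshold

open Pool.Agent.TH837.MX Pool.Agent.TH837.MX.Lab

/-- Let `d, R ≥ 1`. (1) For every `n` a (max,+) program with `2 N + R + 1` instructions, `N` the
number of inputs, approximates the largest total weight of satisfied constraints within `1 / R`, for
all nonnegative weights. (2) For `ε > 0` with `1 / R + ε ≤ 1` there is `γ > 0` such that for all
`n`: a randomised (max,+) program whose value is at most the optimum, and for each satisfiable set
`φ` of constraints, with probability at least `2 ^ (- γ n)`, at least `(1 / R + ε) |φ|`, has at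
least `2 ^ (γ n) - 1` instructions. -/
theorem result (d R : ℕ) (hd : 1 ≤ d) (hR : 1 ≤ R) :
    (∀ n : ℕ, ∃ f : (Con n d R → ℝ) → ℝ, Computes f (2 * Fintype.card (Con n d R) + R + 1) ∧
      ∀ w : Con n d R → ℝ, (∀ c, 0 ≤ w c) → (∃ z : Labeling n d R, f w ≤ ∑ c ∈ sat z, w c) ∧
        ∀ z : Labeling n d R, 1 / R * ∑ c ∈ sat z, w c ≤ f w) ∧
    (∀ ε : ℝ, 0 < ε → 1 / R + ε ≤ 1 → ∃ γ : ℝ, 0 < γ ∧ ∀ (n : ℕ) (T : Type) [Fintype T]
      [Nonempty T] (f : T → (Con n d R → ℝ) → ℝ), Approx (1 / R + ε) (2 ^ (-(γ * n))) f →
      ∀ s : ℕ, (∀ r, Computes (f r) s) → (2 : ℝ) ^ (γ * n) ≤ s + 1) := by
  refine ⟨fun n => ?_, fun ε hε hε1 => ⟨labGam d R ε, labGam_pos hd hR hε,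
    fun _ _ _ _ _ hf _ hs => lab_lower hd hR hε ?_ hf hs⟩⟩
  · have x : Fin (d * R) := ⟨0, Nat.mul_pos hd hR⟩
    exact ⟨labProg n x, labProg_computes n x,
      fun w hw => ⟨labProg_sound hR x w hw, labProg_good hR x w hw⟩⟩
  · have : (0 : ℝ) ≤ 1 / R := by positivity
    linarith

end Pool.Agent.Results.MP_62e2f2_lc.PureDPThreshold
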