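import Pool.Agent.TH661.UG.Triv

set_option autoImplicit false

/-!
# Semidefinite programs for d-to-1 games

The definitions used in the statement are in `Pool/Agent/TH661/UG/Game.lean`:

* `Game n A B`: sets of constraints `(w, v, π)`, where `w` and `v` are vertices (there are `n` on
  each side) and `π : Fin A → Fin B`; `sat G α β`: the number of the constraints `(w, v, π)` of `G`
  with `π (α w) = β v`;
* `GameSDP n A B T k r c₁ s`: the semidefinite programming formulations of the games whose maps `π`
  have the property `T`, which certify the upper bound `c₁` for the value of the games of value at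
  most `s`, with `k` binary variables, any number of free real variables and linear equations, and
  a positive semidefinite matrix variable of order `r`;
* `bits x` (in `Pool/Agent/TH661/LRS/Cut.lean`): the zero-one vector of the truth values `x`.

The idea of the proof is explained in the result `SemidefiniteFormulations` of `MP_325f1f_lc`: the
pseudo-densities for sparse random systems of constraints over the field with `d` elements, each of
which says that `d` of the variables, shifted by random elements, are the values of an affine
function, are lifted to semidefinite programs. Here the labels of a constraint are the `d ^ 2`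
affine functions, and those of a variable are the `d` elements of the field.
-/

namespace Pool.Agent.Results.MP_62e2f2_lc.SemidefiniteFormulations

open Pool.Agent.TH661.UG

/-- Games with maps `Fin (d ^ 2) → Fin d` which take every value exactly `d` times, where
`d = 2 ^ a`, for all `a ≥ 2` (so `d ^ 2 = 4 ^ a`).

(1) There is a constant `C` such that for all `n ≥ C` and `n ^ (-1 / C) ≤ δ ≤ 1` every semidefinite
programming formulation for games on `n + n` vertices, with `k` binary variables and a positive
semidefinite matrix variable of order `r`, which certifies that the value is at most `1 - δ` for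
all games of value at most `(2 log d + 3) / d` (binary logarithm), has
`2 ^ k (r + 1) ≥ n ^ ((log n) / C)`.

(2) For all `c₁ ≥ s` there is a formulation which certifies the upper bound `c₁` for all games of
value at most `s`, with `k = 0` and `r = d ^ (3 n)`. -/
theorem result : ∀ a : ℕ, 2 ≤ a →
    (∃ C : ℕ, 1 ≤ C ∧ ∀ (n k r : ℕ) (δ : ℝ), C ≤ n → (n : ℝ) ^ (-(1 / C) : ℝ) ≤ δ → δ ≤ 1 →
      Nonempty (GameSDP n (4 ^ a) (2 ^ a)
        (fun π => ∀ y, (Finset.univ.filter fun x => π x = y).card = 2 ^ a) k r (1 - δ)
        ((2 * a + 3) / 2 ^ a)) →
      (n : ℝ) ^ (Real.logb 2 n / C) ≤ 2 ^ k * (r + 1)) ∧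
    ∀ (n : ℕ) (c₁ s : ℝ), s ≤ c₁ →
      Nonempty (GameSDP n (4 ^ a) (2 ^ a)
        (fun π => ∀ y, (Finset.univ.filter fun x => π x = y).card = 2 ^ a) 0
        ((4 ^ a) ^ n * (2 ^ a) ^ n) c₁ s) :=
  fun a ha => ⟨proj_lower a ha, fun _ _ _ h => game_upper _ h⟩

end Pool.Agent.Results.MP_62e2f2_lc.SemidefiniteFormulations
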