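import Pool.Agent.TH700.PS.MainTight

/-!
# d-to-1 Label Cover on a fixed sparse graph is hard for read-once tensor networks

A tree tensor network `Net K V A W` (`Pool/Agent/TH700/PA/Defs.lean`) has leaves that read one
symbol of the alphabet `A` each (with a vector in `K ^ W` for each symbol); an inner node combines
the vectors of its two children by an arbitrary bilinear map. It accepts the input `x` if a linear
form of the vector of the root is not zero. The field `K` and the weights are arbitrary, so there
may be cancellations. The tree is arbitrary; if every right child is a leaf then this is a matrix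
product (a weighted ordered read-once branching program, for any order of the edges). The bond
dimension is `card W`.

The inputs are d-to-1 Label Cover instances with left labels `Fin R` and right labels `Fin (d * R)`
on a fixed simple bipartite graph `H` with `Δ n` edges on `n + n` vertices (`Δ` depends only on
`g`); a leaf reads the constraint map of one edge. For fixed `R` the length of the input is linear
in `n`. There is a constant `Γ` such that for every `g ≥ 1` and `n ≥ Γ g ^ 8` there are
`1 ≤ Δ ≤ Γ g ^ 4` and such a graph `H` such that for all `d ≥ 1` and `R ≥ d`, `R ≥ Γ g ^ 16`:
networks with any number of nodes, which read every edge at most once, accept all instances of value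
`1` and reject all instances of value at most `1 / g`, have bond dimension at least
`R ^ (n / (Γ g ^ 2))`. This holds up to the factor `2 ^ μ` also for random networks which never accept
an instance of value at most `1 / g` and accept every instance of value `1` with probability at
least `2 ^ (- μ)` (the deterministic case is `Ω = Unit`, `μ = 0`).

Conversely, for every graph the number of labelings which satisfy all edges is computed by a linear
network over `ℚ` with `2 m - 1` nodes (`m` edges) and bond dimension `R ^ n (d R) ^ n` which reads
every edge once.

Proof: The nodes of the tree give a partition of the edges into `t = 512 g ^ 2 + 1` parts, each of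
them read between at most three nodes, such that no part contains more than `2 t n` of the
`256 g ^ 2 t n` edges. Every part has rank at most the cube of the bond dimension. Take a random
labeling for each part and random constraint maps on its edges which it satisfies. If a labeling
satisfies more than a fraction `1 / g` of the edges of the mixture then it agrees with the labelings
of the parts in at least `4 n` pairs (part, vertex), or it satisfies `128 g t n` edges whose right
label is another one; here the graph has no dense spots (a random graph with these many edges has
at most `2 Δ |A| |B| / n + 64 g n` edges between `A` and `B` for all `A`, `B`). Both events have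
probability less than `R ^ (- 7 n / 2) 2 ^ (- n) / 2`. On the other hand, by the replacement lemma
(choose disjoint bases for the parts, and replace the restrictions of a further instance to the
parts one after the other by members of these bases) among any `t * rank + 1` accepted instances of
value `1` some mixture of different ones is accepted. Count all families of that many instances.
-/

set_option autoImplicit false

namespace Pool.Agent.Results.MP_62e2f2_lc.SparseTensorNetworks

open Pool.Agent.TH700.PA Pool.Agent.TH700.PS

theorem result :
    (∃ Γ : ℕ, ∀ g n : ℕ, 1 ≤ g → Γ * g ^ 8 ≤ n → ∃ Δ : ℕ, 1 ≤ Δ ∧ Δ ≤ Γ * g ^ 4 ∧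
      ∃ H : Fin (Δ * n) ↪ Fin n × Fin n, ∀ d R : ℕ, 1 ≤ d → d ≤ R → Γ * g ^ 16 ≤ R →
      ∀ (μ : ℕ) (Ω : Type) [Fintype Ω] [Nonempty Ω] (K W : Ω → Type) [∀ ρ, Field (K ρ)]
        [∀ ρ, Fintype (W ρ)] (T : ∀ ρ, Net (K ρ) (Fin (Δ * n)) (DMap d R) (W ρ))
        (a : ∀ ρ, W ρ → K ρ),
        (∀ ρ e, (T ρ).reads e ≤ 1) →
        (∀ ρ x, ValueLe g H x → (T ρ).value (a ρ) x = 0) →
        (∀ x, ValueOne H x →
          Nat.card Ω ≤ 2 ^ μ * Nat.card {ρ // (T ρ).value (a ρ) x ≠ 0}) →
        ∃ ρ, R ^ n ≤ (2 ^ μ * Fintype.card (W ρ)) ^ (Γ * g ^ 2)) ∧
    (∀ n m d R : ℕ, 1 ≤ m → ∀ H : Fin m → Fin n × Fin n,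
      ∃ (T : Net ℚ (Fin m) (DMap d R) ((Fin n → Fin R) × (Fin n → Fin (d * R))))
        (a : (Fin n → Fin R) × (Fin n → Fin (d * R)) → ℚ),
        T.Linear ∧ (∀ e, T.reads e = 1) ∧ T.size = 2 * m - 1 ∧
          ∀ x, T.value a x ≠ 0 ↔ ValueOne H x) :=
  ⟨main_sparser, fun _ _ _ _ hm H => upper_sparse hm H⟩

end Pool.Agent.Results.MP_62e2f2_lc.SparseTensorNetworks
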